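import Pool.Agent.helper78.EQ.Spec

/-! Module ZEL: elementary bound for the zeta function (the series is the one of helper85/LD/G1). -/

set_option autoImplicit false

open Complex Metric

namespace Pool.Agent.EQ

open Pool.Agent.helper6.LD

/-- `c_n(s) = (1 - s) n^(-s) - (n+1)^(1-s) + n^(1-s)` with `n` replaced by `n+1`. -/
private noncomputable def h93_zel_c (n : ℕ) (s : ℂ) : ℂ :=
  (1 - s) * ((n : ℂ) + 1) ^ (-s) - ((n : ℂ) + 2) ^ (1 - s) + ((n : ℂ) + 1) ^ (1 - s)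

private lemma h93_zel_pow_sub (n : ℕ) {s : ℂ} (hs : 0 < s.re) {x : ℝ} (hx : (n : ℝ) + 1 ≤ x)
    (hx' : x ≤ (n : ℝ) + 2) :
    ‖(x : ℂ) ^ (-s) - (((n : ℝ) + 1 : ℝ) : ℂ) ^ (-s)‖ ≤
      ‖s‖ * ((n : ℝ) + 1) ^ (-s.re - 1) := by
  have hn : (0 : ℝ) < (n : ℝ) + 1 := by positivity
  have key := (convex_Icc ((n : ℝ) + 1) ((n : ℝ) + 2)).norm_image_sub_le_of_norm_hasDerivWithin_le
    (f := fun y : ℝ => (y : ℂ) ^ (-s)) (f' := fun y : ℝ => (-s) * (y : ℂ) ^ (-s - 1))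
    (C := ‖s‖ * ((n : ℝ) + 1) ^ (-s.re - 1)) (x := (n : ℝ) + 1) (y := x)
    (by
      intro y hy
      have hy0 : y ≠ 0 := (lt_of_lt_of_le hn hy.1).ne'
      exact (hasDerivAt_ofReal_cpow_const hy0 (by
        intro h
        have := congrArg Complex.re h
        simp at this
        linarith) |>.congr_deriv (by ring)).hasDerivWithinAt)
    (by
      intro y hy
      have hy0 : 0 < y := lt_of_lt_of_le hn hy.1
      rw [norm_mul, norm_neg, Complex.norm_cpow_eq_rpow_re_of_pos hy0]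
      refine mul_le_mul_of_nonneg_left ?_ (norm_nonneg _)
      simp only [Complex.sub_re, Complex.neg_re, Complex.one_re]
      exact Real.rpow_le_rpow_of_nonpos hn hy.1 (by linarith))
    ⟨le_rfl, by linarith⟩ ⟨hx, hx'⟩
  refine key.trans ?_
  have h1 : ‖x - ((n : ℝ) + 1)‖ ≤ 1 := by
    rw [Real.norm_eq_abs, abs_le]; constructor <;> linarith
  have h0 : 0 ≤ ‖s‖ * ((n : ℝ) + 1) ^ (-s.re - 1) := by positivity
  calc _ ≤ ‖s‖ * ((n : ℝ) + 1) ^ (-s.re - 1) * 1 := mul_le_mul_of_nonneg_left h1 h0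
    _ = _ := mul_one _

private lemma h93_zel_c_bound (n : ℕ) {s : ℂ} (hs : 0 < s.re) :
    ‖h93_zel_c n s‖ ≤ ‖1 - s‖ * ‖s‖ * ((n : ℝ) + 1) ^ (-s.re - 1) := by
  have hn : (0 : ℝ) < (n : ℝ) + 1 := by positivity
  by_cases h1 : s = 1
  · subst h1
    simp [h93_zel_c]
  have hs1 : (1 : ℂ) - s ≠ 0 := sub_ne_zero.mpr (Ne.symm h1)
  have key := (convex_Icc ((n : ℝ) + 1) ((n : ℝ) + 2)).norm_image_sub_le_of_norm_hasDerivWithin_le
    (f := fun y : ℝ => (1 - s) * (((n : ℝ) + 1 : ℝ) : ℂ) ^ (-s) * (y : ℂ) - (y : ℂ) ^ (1 - s))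
    (f' := fun y : ℝ => (1 - s) * (((n : ℝ) + 1 : ℝ) : ℂ) ^ (-s) - (1 - s) * (y : ℂ) ^ (-s))
    (C := ‖1 - s‖ * ‖s‖ * ((n : ℝ) + 1) ^ (-s.re - 1)) (x := (n : ℝ) + 1) (y := (n : ℝ) + 2)
    (by
      intro y hy
      have hy0 : y ≠ 0 := (lt_of_lt_of_le hn hy.1).ne'
      have e1 : HasDerivAt (fun y : ℝ => (1 - s) * (((n : ℝ) + 1 : ℝ) : ℂ) ^ (-s) * (y : ℂ))
          ((1 - s) * (((n : ℝ) + 1 : ℝ) : ℂ) ^ (-s)) y := by
        simpa using (Complex.ofRealCLM.hasDerivAt (x := y)).const_mul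
          ((1 - s) * (((n : ℝ) + 1 : ℝ) : ℂ) ^ (-s))
      have e2 := hasDerivAt_ofReal_cpow_const hy0 hs1
      exact ((e1.sub e2).congr_deriv (by
        rw [show (1 : ℂ) - s - 1 = -s by ring])).hasDerivWithinAt)
    (by
      intro y hy
      rw [← mul_sub, norm_mul, mul_assoc]
      refine mul_le_mul_of_nonneg_left ?_ (norm_nonneg _)
      rw [norm_sub_rev]
      exact h93_zel_pow_sub n hs hy.1 hy.2)
    ⟨le_rfl, by linarith⟩ ⟨by linarith, le_rfl⟩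
  have e : h93_zel_c n s = ((1 - s) * (((n : ℝ) + 1 : ℝ) : ℂ) ^ (-s) * (((n : ℝ) + 2 : ℝ) : ℂ) -
      (((n : ℝ) + 2 : ℝ) : ℂ) ^ (1 - s)) - ((1 - s) * (((n : ℝ) + 1 : ℝ) : ℂ) ^ (-s) *
      (((n : ℝ) + 1 : ℝ) : ℂ) - (((n : ℝ) + 1 : ℝ) : ℂ) ^ (1 - s)) := by
    unfold h93_zel_c
    push_cast
    ring
  rw [e]
  refine key.trans (le_of_eq ?_)
  have : ‖((n : ℝ) + 2) - ((n : ℝ) + 1)‖ = 1 := by
    rw [show ((n : ℝ) + 2) - ((n : ℝ) + 1) = 1 by ring]; simp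
  rw [this, mul_one]

private lemma h93_zel_summable {a : ℝ} (ha : 0 < a) :
    Summable (fun n : ℕ => ((n : ℝ) + 1) ^ (-a - 1)) := by
  have h := (summable_nat_add_iff (f := fun n : ℕ => (n : ℝ) ^ (-a - 1)) 1).mpr
    (Real.summable_nat_rpow.mpr (by linarith))
  refine h.congr fun n => ?_
  push_cast
  rfl

private lemma h93_zel_diff (n : ℕ) : Differentiable ℂ (h93_zel_c n) := by
  have h1 : ((n : ℂ) + 1) ≠ 0 := by exact_mod_cast Nat.succ_ne_zero n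
  have h2 : ((n : ℂ) + 2) ≠ 0 := by exact_mod_cast Nat.succ_ne_zero (n + 1)
  unfold h93_zel_c
  intro s
  refine ((((differentiableAt_const _).sub differentiableAt_id).mul ?_).sub ?_).add ?_
  · exact (differentiableAt_id.neg).const_cpow (Or.inl h1)
  · exact ((differentiableAt_const _).sub differentiableAt_id).const_cpow (Or.inl h2)
  · exact ((differentiableAt_const _).sub differentiableAt_id).const_cpow (Or.inl h1)

private lemma h93_zel_partial (N : ℕ) (s : ℂ) :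
    ∑ n ∈ Finset.range N, h93_zel_c n s = (1 - s) * ∑ n ∈ Finset.range N, ((n : ℂ) + 1) ^ (-s) -
      ((N : ℂ) + 1) ^ (1 - s) + 1 := by
  induction N with
  | zero => simp
  | succ N ih =>
    rw [Finset.sum_range_succ, Finset.sum_range_succ, ih, h93_zel_c]
    push_cast
    rw [show (N : ℂ) + 1 + 1 = (N : ℂ) + 2 by ring]
    ring

private lemma h93_zel_zeta {s : ℂ} (hs : 1 < s.re) :
    HasSum (fun n : ℕ => ((n : ℂ) + 1) ^ (-s)) (riemannZeta s) := by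
  rw [zeta_eq_tsum_one_div_nat_add_one_cpow hs]
  have h : Summable (fun n : ℕ => 1 / ((n : ℂ) + 1) ^ s) := by
    have := (summable_nat_add_iff (f := fun n : ℕ => 1 / (n : ℂ) ^ s) 1).mpr
      (Complex.summable_one_div_nat_cpow.mpr hs)
    refine this.congr fun n => ?_
    push_cast
    rfl
  refine h.hasSum.congr_fun ?_
  intro n
  rw [Complex.cpow_neg, one_div]

private lemma h93_zel_tsum {s : ℂ} (hs : 1 < s.re) :
    ∑' n : ℕ, h93_zel_c n s = (1 - s) * riemannZeta s + 1 := by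
  have hsum : Summable (fun n : ℕ => h93_zel_c n s) := by
    refine Summable.of_norm_bounded ((h93_zel_summable (a := s.re) (by linarith)).mul_left
      (‖1 - s‖ * ‖s‖)) fun n => h93_zel_c_bound n (by linarith)
  have h1 := hsum.hasSum.tendsto_sum_nat
  have h2 : Filter.Tendsto (fun N : ℕ => (1 - s) * ∑ n ∈ Finset.range N, ((n : ℂ) + 1) ^ (-s) -
      ((N : ℂ) + 1) ^ (1 - s) + 1) Filter.atTop (nhds ((1 - s) * riemannZeta s - 0 + 1)) := by
    refine ((((h93_zel_zeta hs).tendsto_sum_nat).const_mul (1 - s)).sub ?_).add_const 1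
    rw [tendsto_zero_iff_norm_tendsto_zero]
    have e : (fun N : ℕ => ‖((N : ℂ) + 1) ^ (1 - s)‖) =
        fun N : ℕ => ((N : ℝ) + 1) ^ (-(s.re - 1)) := by
      funext N
      have hN : (0 : ℝ) < (N : ℝ) + 1 := by positivity
      rw [show ((N : ℂ) + 1) = (((N : ℝ) + 1 : ℝ) : ℂ) by push_cast; rfl,
        Complex.norm_cpow_eq_rpow_re_of_pos hN]
      congr 1
      simp
    rw [e]
    refine (tendsto_rpow_neg_atTop (y := s.re - 1) (by linarith)).comp ?_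
    exact Filter.tendsto_atTop_add_const_right _ _ tendsto_natCast_atTop_atTop
  simp only [h93_zel_partial] at h1
  rw [tendsto_nhds_unique h1 h2, sub_zero]

private lemma h93_zel_cont {s : ℂ} (hs : 1 / 8 ≤ s.re) :
    ∑' n : ℕ, h93_zel_c n s = 1 - riemannZeta₁ s := by
  set R : ℝ := ‖s‖ + 3 with hR
  set U : Set ℂ := {z : ℂ | 1 / 16 < z.re} ∩ ball 0 R with hU
  have hUo : IsOpen U := (isOpen_lt continuous_const Complex.continuous_re).inter isOpen_ball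
  have hUc : Convex ℝ U := (convex_halfSpace_re_gt (1 / 16)).inter (convex_ball 0 R)
  have hsU : s ∈ U := ⟨by simp only [Set.mem_ofPred_eq]; linarith, by
    rw [mem_ball_zero_iff, hR]; linarith⟩
  have h2U : (2 : ℂ) ∈ U := ⟨by simp only [Set.mem_ofPred_eq]; norm_num, by
    rw [mem_ball_zero_iff, hR]
    have : ‖(2 : ℂ)‖ = 2 := by simp
    rw [this]
    have := norm_nonneg s
    linarith⟩
  have hF : DifferentiableOn ℂ (fun z => ∑' n : ℕ, h93_zel_c n z) U := by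
    refine Complex.differentiableOn_tsum_of_summable_norm
      (u := fun n : ℕ => ((1 + R) * R) * ((n : ℝ) + 1) ^ (-(1 / 16 : ℝ) - 1))
      ((h93_zel_summable (by norm_num)).mul_left _)
      (fun n => (h93_zel_diff n).differentiableOn) hUo ?_
    intro n z hz
    have hz1 : 1 / 16 < z.re := hz.1
    have hz2 : ‖z‖ < R := by simpa using hz.2
    refine (h93_zel_c_bound n (by linarith)).trans ?_
    have hR0 : 0 ≤ R := by positivity
    refine mul_le_mul (mul_le_mul ?_ hz2.le (norm_nonneg _) (by positivity)) ?_ (by positivity)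
      (by positivity)
    · calc ‖1 - z‖ ≤ ‖(1 : ℂ)‖ + ‖z‖ := norm_sub_le _ _
        _ ≤ 1 + R := by rw [norm_one]; linarith
    · exact Real.rpow_le_rpow_of_exponent_le (by
        have : (0 : ℝ) ≤ n := by positivity
        linarith) (by linarith)
  have hG : DifferentiableOn ℂ (fun z => 1 - riemannZeta₁ z) U :=
    ((differentiable_const 1).sub differentiable_riemannZeta₁).differentiableOn
  have hEq : Set.EqOn (fun z => ∑' n : ℕ, h93_zel_c n z) (fun z => 1 - riemannZeta₁ z) U := by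
    refine (hF.analyticOnNhd hUo).eqOn_of_preconnected_of_eventuallyEq (hG.analyticOnNhd hUo)
      hUc.isPreconnected h2U ?_
    have : {z : ℂ | 1 < z.re} ∈ nhds (2 : ℂ) :=
      (isOpen_lt continuous_const Complex.continuous_re).mem_nhds (by
        simp only [Set.mem_ofPred_eq]; norm_num)
    filter_upwards [this] with z hz
    have hz1 : z ≠ 1 := by
      intro h
      rw [h] at hz
      simp at hz
    rw [h93_zel_tsum hz, riemannZeta_eq_inv_sub_mul hz1]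
    have : z - 1 ≠ 0 := sub_ne_zero.mpr hz1
    field_simp
    ring
  exact hEq hsU


private lemma h93_zel_step {x σ : ℝ} (hx : 0 < x) (hσ : 0 < σ) :
    (x + 1) ^ (-σ - 1) ≤ (x ^ (-σ) - (x + 1) ^ (-σ)) / σ := by
  have hx1 : 0 < x + 1 := by linarith
  rw [le_div_iff₀ hσ]
  set t : ℝ := x / (x + 1) with ht
  have ht0 : 0 < t := by positivity
  have h1 : x ^ (-σ) = (x + 1) ^ (-σ) * t ^ (-σ) := by
    rw [← Real.mul_rpow hx1.le ht0.le, ht]
    congr 1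
    field_simp
  have h2 : 1 + σ * (1 - t) ≤ t ^ (-σ) := by
    rw [Real.rpow_def_of_pos ht0]
    have h3 := Real.add_one_le_exp (Real.log t * -σ)
    have h4 := Real.log_le_sub_one_of_pos ht0
    nlinarith
  have h5 : (x + 1) ^ (-σ - 1) = (x + 1) ^ (-σ) * (x + 1)⁻¹ := by
    rw [Real.rpow_sub hx1, Real.rpow_one, div_eq_mul_inv]
  have h6 : 1 - t = (x + 1)⁻¹ := by
    rw [ht]
    field_simp
    ring
  have h7 : 0 < (x + 1) ^ (-σ) := Real.rpow_pos_of_pos hx1 _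
  rw [h1, h5]
  rw [h6] at h2
  nlinarith [mul_le_mul_of_nonneg_left h2 h7.le]

private lemma h93_zel_tail {σ : ℝ} (hσ : 0 < σ) (N : ℕ) (hN : 1 ≤ N) (K : ℕ) :
    ∑ n ∈ Finset.range K, (((n + N : ℕ) : ℝ) + 1) ^ (-σ - 1) ≤
      ((N : ℝ) ^ (-σ) - ((K + N : ℕ) : ℝ) ^ (-σ)) / σ := by
  induction K with
  | zero => simp
  | succ K ih =>
    rw [Finset.sum_range_succ]
    have hp : (0 : ℝ) < ((K + N : ℕ) : ℝ) := by
      have : 0 < K + N := by omega
      exact_mod_cast this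
    have h := h93_zel_step hp hσ
    have e : (((K + 1 + N : ℕ)) : ℝ) = ((K + N : ℕ) : ℝ) + 1 := by
      push_cast
      ring
    rw [e]
    have e2 : ((N : ℝ) ^ (-σ) - (((K + N : ℕ) : ℝ) + 1) ^ (-σ)) / σ =
        ((N : ℝ) ^ (-σ) - ((K + N : ℕ) : ℝ) ^ (-σ)) / σ +
        (((K + N : ℕ) : ℝ) ^ (-σ) - (((K + N : ℕ) : ℝ) + 1) ^ (-σ)) / σ := by ring
    rw [e2]
    exact add_le_add ih h

private lemma h93_zel_tail2 {s : ℂ} (hs : 1 / 2 ≤ s.re) (N : ℕ) (hN : 1 ≤ N) :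
    ‖∑' n : ℕ, h93_zel_c (n + N) s‖ ≤ ‖1 - s‖ * ‖s‖ * ((N : ℝ) ^ (-s.re) / s.re) := by
  have hσ : 0 < s.re := by linarith
  have hsum0 := h93_zel_summable hσ
  have hsum : Summable (fun n : ℕ => (((n + N : ℕ) : ℝ) + 1) ^ (-s.re - 1)) :=
    (summable_nat_add_iff (f := fun n : ℕ => ((n : ℝ) + 1) ^ (-s.re - 1)) N).mpr hsum0
  have h1 : ‖∑' n : ℕ, h93_zel_c (n + N) s‖ ≤ ∑' n : ℕ, ‖1 - s‖ * ‖s‖ *
      (((n + N : ℕ) : ℝ) + 1) ^ (-s.re - 1) :=
    tsum_of_norm_bounded (hsum.mul_left _).hasSum fun n => h93_zel_c_bound (n + N) hσ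
  refine h1.trans ?_
  rw [tsum_mul_left]
  refine mul_le_mul_of_nonneg_left ?_ (by positivity)
  refine Real.tsum_le_of_sum_range_le (fun n => by positivity) fun K => ?_
  refine (h93_zel_tail hσ N hN K).trans ?_
  refine div_le_div_of_nonneg_right ?_ hσ.le
  have : (0 : ℝ) ≤ ((K + N : ℕ) : ℝ) ^ (-s.re) := by positivity
  linarith

private lemma h93_zel_formula {s : ℂ} (hs : 1 / 2 ≤ s.re) (hs1 : s ≠ 1) (N : ℕ) (hN : 1 ≤ N) :
    ‖riemannZeta s‖ ≤ ∑ n ∈ Finset.range N, ((n : ℝ) + 1) ^ (-s.re) +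
      ((N : ℝ) + 1) ^ (1 - s.re) / ‖s - 1‖ + ‖s‖ * ((N : ℝ) ^ (-s.re) / s.re) := by
  have hσ : 0 < s.re := by linarith
  have hsum : Summable (fun n : ℕ => h93_zel_c n s) :=
    Summable.of_norm_bounded ((h93_zel_summable (a := s.re) hσ).mul_left
      (‖1 - s‖ * ‖s‖)) fun n => h93_zel_c_bound n hσ
  have h1 := hsum.sum_add_tsum_nat_add N
  rw [h93_zel_cont (by linarith), h93_zel_partial] at h1
  have hne : s - 1 ≠ 0 := sub_ne_zero.mpr hs1
  have hz : riemannZeta₁ s = (s - 1) * riemannZeta s := by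
    rw [riemannZeta_eq_inv_sub_mul hs1]
    field_simp
  rw [hz] at h1
  have h2 : (s - 1) * riemannZeta s = (s - 1) * ∑ n ∈ Finset.range N, ((n : ℂ) + 1) ^ (-s) +
      ((N : ℂ) + 1) ^ (1 - s) - ∑' n : ℕ, h93_zel_c (n + N) s := by
    linear_combination h1
  have hpos : 0 < ‖s - 1‖ := norm_pos_iff.mpr hne
  have h3 : ‖s - 1‖ * ‖riemannZeta s‖ ≤ ‖s - 1‖ * ∑ n ∈ Finset.range N, ((n : ℝ) + 1) ^ (-s.re) +
      ((N : ℝ) + 1) ^ (1 - s.re) + ‖s - 1‖ * ‖s‖ * ((N : ℝ) ^ (-s.re) / s.re) := by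
    rw [← norm_mul, h2]
    refine (norm_sub_le _ _).trans (add_le_add ((norm_add_le _ _).trans (add_le_add ?_ ?_)) ?_)
    · rw [norm_mul]
      refine mul_le_mul_of_nonneg_left ((norm_sum_le _ _).trans (Finset.sum_le_sum fun n _ => ?_))
        hpos.le
      have hn : (0 : ℝ) < (n : ℝ) + 1 := by positivity
      rw [show ((n : ℂ) + 1) = (((n : ℝ) + 1 : ℝ) : ℂ) by push_cast; rfl,
        Complex.norm_cpow_eq_rpow_re_of_pos hn, Complex.neg_re]
    · have hn : (0 : ℝ) < (N : ℝ) + 1 := by positivity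
      rw [show ((N : ℂ) + 1) = (((N : ℝ) + 1 : ℝ) : ℂ) by push_cast; rfl,
        Complex.norm_cpow_eq_rpow_re_of_pos hn]
      simp
    · have := h93_zel_tail2 hs N hN
      rw [norm_sub_rev s 1]
      exact this
  have h4 : ‖s - 1‖ * ∑ n ∈ Finset.range N, ((n : ℝ) + 1) ^ (-s.re) +
      ((N : ℝ) + 1) ^ (1 - s.re) + ‖s - 1‖ * ‖s‖ * ((N : ℝ) ^ (-s.re) / s.re) =
      ‖s - 1‖ * (∑ n ∈ Finset.range N, ((n : ℝ) + 1) ^ (-s.re) +
      ((N : ℝ) + 1) ^ (1 - s.re) / ‖s - 1‖ + ‖s‖ * ((N : ℝ) ^ (-s.re) / s.re)) := by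
    field_simp
  rw [h4] at h3
  exact le_of_mul_le_mul_left h3 hpos

private lemma h93_zel_sum (σ : ℝ) (N : ℕ) (hN : 1 ≤ N) :
    ∑ n ∈ Finset.range N, ((n : ℝ) + 1) ^ (-σ) ≤
      (N : ℝ) ^ (max (1 - σ) 0) * (1 + Real.log N) := by
  have h1 : ∀ n ∈ Finset.range N, ((n : ℝ) + 1) ^ (-σ) ≤
      (N : ℝ) ^ (max (1 - σ) 0) * ((n : ℝ) + 1)⁻¹ := by
    intro n hn
    have hn1 : (1 : ℝ) ≤ (n : ℝ) + 1 := by
      have : (0 : ℝ) ≤ n := Nat.cast_nonneg n
      linarith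
    have hn0 : (0 : ℝ) < (n : ℝ) + 1 := by linarith
    have hnN : (n : ℝ) + 1 ≤ N := by
      have : n + 1 ≤ N := Finset.mem_range.mp hn
      exact_mod_cast this
    have e : ((n : ℝ) + 1) ^ (-σ) = ((n : ℝ) + 1) ^ (1 - σ) * ((n : ℝ) + 1)⁻¹ := by
      rw [← Real.rpow_neg_one ((n : ℝ) + 1), ← Real.rpow_add hn0]
      congr 1
      ring
    rw [e]
    refine mul_le_mul_of_nonneg_right ?_ (by positivity)
    calc ((n : ℝ) + 1) ^ (1 - σ) ≤ ((n : ℝ) + 1) ^ (max (1 - σ) 0) :=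
          Real.rpow_le_rpow_of_exponent_le hn1 (le_max_left _ _)
      _ ≤ (N : ℝ) ^ (max (1 - σ) 0) :=
          Real.rpow_le_rpow hn0.le hnN (le_max_right _ _)
  refine (Finset.sum_le_sum h1).trans ?_
  rw [← Finset.mul_sum]
  refine mul_le_mul_of_nonneg_left ?_ (by positivity)
  have h2 := harmonic_le_one_add_log N
  have h3 : ((harmonic N : ℚ) : ℝ) = ∑ n ∈ Finset.range N, ((n : ℝ) + 1)⁻¹ := by
    rw [harmonic]
    push_cast
    rfl
  rw [h3] at h2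
  exact h2

theorem ZEL : ZEL_stmt := by
  intro η hη
  refine ⟨2 * ((1 + 1 / η) * 2 ^ η) + 6, by positivity, ?_⟩
  intro s hs him
  set τ : ℝ := |s.im| with hτ
  set m : ℝ := max (1 - s.re) 0 with hm
  have hσ : 0 < s.re := by linarith
  have hm0 : 0 ≤ m := le_max_right _ _
  have hm1 : m ≤ 1 := max_le (by linarith) (by norm_num)
  have hτ0 : 0 < τ := by linarith
  have hs1 : s ≠ 1 := by
    intro h
    rw [hτ, h] at him
    simp at him
    linarith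
  have hn1 : τ ≤ ‖s - 1‖ := by
    have := Complex.abs_im_le_norm (s - 1)
    simpa using this
  obtain ⟨N, hNeq⟩ : ∃ N : ℕ, N = ⌈τ⌉₊ := ⟨_, rfl⟩
  have hN1 : τ ≤ N := by rw [hNeq]; exact Nat.le_ceil τ
  have hN2 : (N : ℝ) ≤ τ + 1 := by rw [hNeq]; exact (Nat.ceil_lt_add_one hτ0.le).le
  have hNR : (1 : ℝ) ≤ N := him.trans hN1
  have hN : 1 ≤ N := by exact_mod_cast hNR
  have hN0 : (0 : ℝ) < N := by linarith
  have hf := h93_zel_formula hs hs1 N hN
  have htm1 : 1 ≤ τ ^ m := Real.one_le_rpow him hm0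
  have hte1 : 1 ≤ τ ^ η := Real.one_le_rpow him hη.le
  -- first term
  have ha : ∑ n ∈ Finset.range N, ((n : ℝ) + 1) ^ (-s.re) ≤
      2 * ((1 + 1 / η) * 2 ^ η) * (τ ^ m * τ ^ η) := by
    refine (h93_zel_sum s.re N hN).trans ?_
    have h1 : (N : ℝ) ^ m ≤ 2 * τ ^ m := by
      calc (N : ℝ) ^ m ≤ (2 * τ) ^ m := Real.rpow_le_rpow hN0.le (by linarith) hm0
        _ = 2 ^ m * τ ^ m := Real.mul_rpow (by norm_num) hτ0.le
        _ ≤ 2 * τ ^ m := by
          refine mul_le_mul_of_nonneg_right ?_ (by positivity)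
          calc (2 : ℝ) ^ m ≤ 2 ^ (1 : ℝ) := Real.rpow_le_rpow_of_exponent_le (by norm_num) hm1
            _ = 2 := Real.rpow_one 2
    have h2 : 1 + Real.log N ≤ (1 + 1 / η) * 2 ^ η * τ ^ η := by
      have h3 := Real.log_le_rpow_div hN0.le hη
      have h4 : (N : ℝ) ^ η ≤ 2 ^ η * τ ^ η := by
        rw [← Real.mul_rpow (by norm_num) hτ0.le]
        exact Real.rpow_le_rpow hN0.le (by linarith) hη.le
      have h5 : (1 : ℝ) ≤ (N : ℝ) ^ η := Real.one_le_rpow hNR hη.le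
      calc 1 + Real.log N ≤ (N : ℝ) ^ η + (N : ℝ) ^ η / η := add_le_add h5 h3
        _ = (1 + 1 / η) * (N : ℝ) ^ η := by ring
        _ ≤ (1 + 1 / η) * (2 ^ η * τ ^ η) := by
          refine mul_le_mul_of_nonneg_left h4 (by positivity)
        _ = _ := by ring
    have h6 : 0 ≤ 1 + Real.log N := by
      have := Real.log_nonneg hNR
      linarith
    calc (N : ℝ) ^ m * (1 + Real.log N) ≤ (2 * τ ^ m) * ((1 + 1 / η) * 2 ^ η * τ ^ η) :=
          mul_le_mul h1 h2 h6 (by positivity)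
      _ = _ := by ring
  -- second term
  have hb : ((N : ℝ) + 1) ^ (1 - s.re) / ‖s - 1‖ ≤ 3 * τ ^ m := by
    have h0 : (0 : ℝ) < ‖s - 1‖ := by linarith
    rw [div_le_iff₀ h0]
    have h1 : ((N : ℝ) + 1) ^ (1 - s.re) ≤ 3 * τ ^ m := by
      calc ((N : ℝ) + 1) ^ (1 - s.re) ≤ ((N : ℝ) + 1) ^ m :=
            Real.rpow_le_rpow_of_exponent_le (by linarith) (le_max_left _ _)
        _ ≤ (3 * τ) ^ m := Real.rpow_le_rpow (by linarith) (by linarith) hm0
        _ = 3 ^ m * τ ^ m := Real.mul_rpow (by norm_num) hτ0.le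
        _ ≤ 3 * τ ^ m := by
          refine mul_le_mul_of_nonneg_right ?_ (by positivity)
          calc (3 : ℝ) ^ m ≤ 3 ^ (1 : ℝ) := Real.rpow_le_rpow_of_exponent_le (by norm_num) hm1
            _ = 3 := Real.rpow_one 3
    have h2 : 0 ≤ 3 * τ ^ m := by positivity
    calc ((N : ℝ) + 1) ^ (1 - s.re) ≤ 3 * τ ^ m * 1 := by linarith
      _ ≤ 3 * τ ^ m * ‖s - 1‖ := mul_le_mul_of_nonneg_left (by linarith) h2
  -- third term
  have hc : ‖s‖ * ((N : ℝ) ^ (-s.re) / s.re) ≤ 3 * τ ^ m := by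
    have h1 : ‖s‖ ≤ s.re + τ := by
      have := Complex.norm_le_abs_re_add_abs_im s
      rwa [abs_of_pos hσ] at this
    have h2 : ‖s‖ / s.re ≤ 3 * τ := by
      rw [div_le_iff₀ hσ]
      nlinarith
    have h3 : (N : ℝ) ^ (-s.re) ≤ τ ^ (-s.re) :=
      Real.rpow_le_rpow_of_nonpos hτ0 hN1 (by linarith)
    have h4 : τ * τ ^ (-s.re) = τ ^ (1 - s.re) := by
      rw [sub_eq_add_neg, Real.rpow_add hτ0, Real.rpow_one]
    calc ‖s‖ * ((N : ℝ) ^ (-s.re) / s.re) = ‖s‖ / s.re * (N : ℝ) ^ (-s.re) := by ring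
      _ ≤ 3 * τ * τ ^ (-s.re) := mul_le_mul h2 h3 (by positivity) (by positivity)
      _ = 3 * τ ^ (1 - s.re) := by rw [mul_assoc, h4]
      _ ≤ 3 * τ ^ m := by
        refine mul_le_mul_of_nonneg_left ?_ (by norm_num)
        exact Real.rpow_le_rpow_of_exponent_le him (le_max_left _ _)
  rw [Real.rpow_add hτ0]
  have h7 : τ ^ m ≤ τ ^ m * τ ^ η := le_mul_of_one_le_right (by positivity) hte1
  calc ‖riemannZeta s‖ ≤ _ := hf
    _ ≤ 2 * ((1 + 1 / η) * 2 ^ η) * (τ ^ m * τ ^ η) + 3 * τ ^ m + 3 * τ ^ m :=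
        add_le_add (add_le_add ha hb) hc
    _ ≤ (2 * ((1 + 1 / η) * 2 ^ η) + 6) * (τ ^ m * τ ^ η) := by nlinarith

end Pool.Agent.EQ
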